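import Pool.Agent.MP_c1891a_nt.G43.Spec3
import Pool.Agent.MP_c1891a_nt.H16.NA
import Pool.Agent.MP_c1891a_nt.H44.Gal
import Pool.Agent.MP_c1891a_nt.H51.FacC

/-! Images under isogenies divisible by a large integer, in all dimensions. -/

namespace Pool.Agent.MP_c1891a_nt.G43

open Finset Module H43

theorem pushN_adj {d : ℕ} (A : (Fin d → ℤ) →ₗ[ℤ] (Fin d → ℤ)) (hA : Function.Injective A) :
    ∃ (D : ℕ) (A' : (Fin d → ℤ) →ₗ[ℤ] (Fin d → ℤ)), 0 < D ∧ (∀ l, A (A' l) = D • l) ∧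
      ∀ l, A' (A l) = D • l := by
  obtain ⟨M, rfl⟩ := Matrix.toLin'.surjective A
  have h0 : M.det ≠ 0 := fun h => by
    obtain ⟨v, v0, hv⟩ := Matrix.exists_mulVec_eq_zero_iff.2 h
    exact v0 (hA (by simpa using hv))
  have e : ∀ l : Fin d → ℤ, (M.det.natAbs ^ 2) • l = M.det • M.det • l := fun l => by
    rw [smul_smul, ← natCast_zsmul]
    congr 1
    push_cast
    rw [sq_abs, sq]
  refine ⟨M.det.natAbs ^ 2, Matrix.toLin' (M.det • M.adjugate), by positivity, fun l => ?_,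
    fun l => ?_⟩
  · simp [e, Matrix.mul_adjugate, -zsmul_eq_mul]
  · simp [e, Matrix.adjugate_mul]

theorem pushN_root {d n : ℕ} (hn : 0 < n) (ψ : AddChar (Fin d → ℤ) ℂ) :
    ∃ ψ₁ : AddChar (Fin d → ℤ) ℂ, ψ₁ ^ n = ψ := by
  choose z hz using fun i => IsAlgClosed.exists_pow_nat_eq (ψ (Pi.single i 1)) hn
  have z0 : ∀ i, z i ≠ 0 := fun i h => char_ne ψ _ (by rw [← hz, h, zero_pow hn.ne'])
  refine ⟨⟨fun l => ∏ i, z i ^ l i, by simp, fun a b => by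
    simp [zpow_add₀ (z0 _), prod_mul_distrib]⟩, AddChar.ext _ _ fun l => ?_⟩
  have e : ψ (∑ i, l i • Pi.single i 1) = ∏ i, ψ (l i • Pi.single i 1) := by
    induction (univ : Finset (Fin d)) using Finset.induction_on with
    | empty => simp
    | insert i s hi ih => rw [sum_insert hi, prod_insert hi, ψ.map_add_eq_mul, ih]
  rw [← pi_eq_sum_univ' l] at e
  rw [e, AddChar.pow_apply, AddChar.coe_mk, ← prod_pow]
  refine prod_congr rfl fun i _ => ?_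
  rw [AddChar.map_zsmul_eq_zpow, ← hz, ← zpow_natCast, ← zpow_natCast, zpow_comm]

theorem pushN_int {d : ℕ} {P : LN d} (hP : ∀ μ, IsIntegral ℤ (P.coeff μ))
    {χ : AddChar (Fin d → ℤ) ℂ} (h : IsOfFinOrder χ) : IsIntegral ℤ (evL P χ) :=
  IsIntegral.sum _ fun μ _ => (hP μ).mul (na_int (char_tor h _)).1

open Classical in
theorem pushN_or {d : ℕ} {R : LN d} (ha : ∀ μ, IsAlgebraic ℚ (R.coeff μ)) :
    (∀ μ, IsIntegral ℤ (R.coeff μ)) ∨ ∃ T : Finset (Fin d → ℤ), ∀ χ : AddChar (Fin d → ℤ) ℂ,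
      IsOfFinOrder χ → H79.IsU (evL R χ) → ¬ NoRel T χ := by
  rcases sNA sGal _ R.coeff.support R.coeff fun μ _ => ha μ with h | ⟨B, hB⟩
  · refine Or.inl fun μ => ?_
    by_cases m : μ ∈ R.coeff.support
    · exact h μ m
    · rw [Finsupp.notMem_support_iff.1 m]; exact isIntegral_zero
  refine Or.inr ⟨(range (B + 1) ×ˢ R.coeff.support ×ˢ R.coeff.support).image
    fun x => x.1 • (x.2.1 - x.2.2), fun χ t hu hr => ?_⟩
  obtain ⟨μ, hμ, ν, hν, ne, s, s0, s1, s2⟩ := hB χ (fun μ _ => char_tor t μ) hu.2.1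
  refine hr (s • (μ - ν)) (mem_image.2 ⟨(s, μ, ν), by simp [mem_product, hμ, hν, s1,
    -Finsupp.mem_support_iff], rfl⟩) (fun e => ?_) ?_
  · rw [← natCast_zsmul] at e
    exact (smul_eq_zero.1 e).elim (by exact_mod_cast s0.ne') (sub_ne_zero.2 ne)
  · rw [χ.map_nsmul_eq_pow, χ.map_sub_eq_div, div_pow, s2, div_self (pow_ne_zero _ (char_ne χ ν))]

open Classical in
theorem pushN_all (h1 : SRedN) (h2 : SLink) (h5 : SSat) {d : ℕ} (P : LN d)
    (ha : ∀ μ, IsAlgebraic ℚ (P.coeff μ)) (hb : BigN P) :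
    ∃ k₀ : ℕ, ∀ k : ℕ, k₀ ≤ k → 0 < k ∧ ∃ T : Finset (Fin d → ℤ), ∀ χ : AddChar (Fin d → ℤ) ℂ,
      IsOfFinOrder χ → (∀ η : AddChar (Fin d → ℤ) ℂ, η ^ k = 1 → H79.IsU (evL P (η * χ))) →
      ¬ NoRel T (χ ^ k) := by
  obtain ⟨Λ, hs, -, -, ⟨T, hT⟩ | ⟨r, U, hU, hP⟩⟩ := h1 d P ha hb
  · refine ⟨1, fun k hk => ⟨hk, T, fun χ t hu hr => hT χ t (by simpa using hu 1 (one_pow k))
      fun l hl l0 e => hr l hl l0 (by rw [AddChar.pow_apply, e, one_pow])⟩⟩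
  obtain ⟨n₀, hn⟩ := (h2 Λ U hU).2.2 r
  have := ((h5 (Fin d → ℤ) Unit ∅ 0).2 Λ hs).1
  obtain ⟨s, hs'⟩ := Module.projective_lifting_property Λ.mkQ LinearMap.id Λ.mkQ_surjective
  let π : (Fin d → ℤ) →ₗ[ℤ] Λ := (LinearMap.id - s ∘ₗ Λ.mkQ).codRestrict Λ fun l => by
    rw [← Submodule.Quotient.mk_eq_zero, ← Submodule.mkQ_apply]
    exact sub_eq_zero.2 (LinearMap.congr_fun hs' (Λ.mkQ l)).symm
  have hπ : ∀ w : Λ, π w = w := fun w => Subtype.ext (by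
    simp [π, (Submodule.Quotient.mk_eq_zero Λ).2 w.2])
  refine ⟨n₀ + 1, fun k hk => ⟨by omega, ?_⟩⟩
  obtain ⟨T, hT⟩ := hn k (by omega)
  refine ⟨T.image Subtype.val, fun χ t hu hr => ?_⟩
  obtain ⟨η, e, hη⟩ := hT (rs Λ χ) (fin_of_pow t.orderOf_pos (by
    rw [← rs_pow, pow_orderOf_eq_one]; ext; simp))
    (rs_pow Λ χ k ▸ hr.rs fun l hl => mem_image_of_mem _ hl)
  have e' : η.compAddMonoidHom π.toAddMonoidHom ^ k = 1 :=
    AddChar.ext _ _ fun l => char_pow_one e _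
  refine hη ?_
  convert hP _ ((fin_of_pow (by omega) e').mul t) (hu _ e') using 1
  ext l
  simp [hπ]

theorem sPushN (h1 : SRedN) (h2 : SLink) (h3 : SPrimN2) (h4 : SFacN) (h5 : SSat) : SPushN := by
  classical
  intro d P ha hb
  obtain ⟨f1, f2, -⟩ := h4 d
  choose φ φ1 φ2 using f1
  have sm : ∀ (s : ℂ) (Q : LN d) χ, evL (s • Q) χ = s * evL Q χ := fun s Q χ => by
    rw [← φ1, ← φ1, map_smul, smul_eq_mul]
  obtain ⟨t, a1, a2⟩ : ∃ t : ℂ, (∀ μ, IsAlgebraic ℚ ((t • P).coeff μ)) ∧ ∀ S : LN d,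
      (∀ μ, IsIntegral ℤ ((P * S).coeff μ)) → ∀ χ, IsOfFinOrder χ →
      H79.IsU (evL P χ * evL S χ) → H79.IsU (evL (t • P) χ) := by
    by_cases h0 : P = 0
    · exact ⟨1, by rwa [one_smul], fun S _ χ _ hu => absurd (by
        rw [← φ1, h0, map_zero, zero_mul]) hu.1⟩
    obtain ⟨t, t0, t1, t2⟩ := h3 d P ha h0
    refine ⟨t, fun μ => ((t1 μ).tower_top (A := ℚ)).isAlgebraic, fun S hS χ tχ hu => ?_⟩
    refine facC_unit (u := evL (t⁻¹ • S) χ) (pushN_int (t2 S hS) tχ) (pushN_int t1 tχ) ?_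
    rwa [sm, sm, mul_mul_mul_comm, inv_mul_cancel₀ t0, one_mul, mul_comm]
  obtain ⟨k₀, hk⟩ := pushN_all h1 h2 h5 (t • P) a1 fun T => by
    obtain ⟨χ, a, b⟩ := hb T
    exact ⟨χ, by rw [sm, a, mul_zero], b⟩
  refine ⟨k₀, fun k k1 A hA R S ra e => ?_⟩
  refine (pushN_or ra).elim (fun ri => ?_) id
  obtain ⟨k0, T, hT⟩ := hk k k1
  obtain ⟨D, A', D0, A1, A2⟩ := pushN_adj A hA
  have e1 : P * S = ∑ μ ∈ R.coeff.support, AddMonoidAlgebra.single (k • A μ) (R.coeff μ) := by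
    refine sub_eq_zero.1 (f2 _ fun χ => ?_)
    rw [← φ1, map_sub, map_mul, φ1, φ1, ← e, map_sum, sub_eq_zero]
    refine sum_congr rfl fun μ _ => ?_
    rw [φ2, χ.map_nsmul_eq_pow]
    rfl
  have si := a2 S fun ν => by
    rw [e1, AddMonoidAlgebra.coeff_sum, Finsupp.finsetSum_apply]
    refine IsIntegral.sum _ fun μ _ => ?_
    rw [AddMonoidAlgebra.coeff_single, Finsupp.single_apply]
    split_ifs
    · exact ri μ
    · exact isIntegral_zero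
  refine ⟨T.image A', fun ψ tψ hu hr => ?_⟩
  obtain ⟨ψ₁, rfl⟩ := pushN_root (Nat.mul_pos D0 k0) ψ
  have t1 := tψ.of_pow (Nat.mul_pos D0 k0).ne'
  have t2 : IsOfFinOrder (ψ₁.compAddMonoidHom A'.toAddMonoidHom) :=
    fin_of_pow t1.orderOf_pos (AddChar.ext _ _ fun l => char_pow_one (pow_orderOf_eq_one ψ₁) _)
  have e2 : (ψ₁.compAddMonoidHom A'.toAddMonoidHom ^ k).compAddMonoidHom A.toAddMonoidHom =
      ψ₁ ^ (D * k) := AddChar.ext _ _ fun l => by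
    simp [A2, ψ₁.map_nsmul_eq_pow, pow_mul, -nsmul_eq_mul]
  generalize ψ₁.compAddMonoidHom A'.toAddMonoidHom = χ at t2 e2
  rw [← e2] at hu hr
  refine hT χ t2 (fun η hη => si _ ((fin_of_pow k0 hη).mul t2) ?_) fun l hl l0 el => ?_
  · rwa [← e, mul_pow, hη, one_mul]
  · refine hr (A' l) (mem_image_of_mem _ hl) (fun z => l0 ?_) ?_
    · have := A1 l
      rw [z, map_zero, ← natCast_zsmul] at this
      exact (smul_eq_zero.1 this.symm).resolve_left (by exact_mod_cast D0.ne')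
    · show (χ ^ k) (A (A' l)) = 1
      rw [A1, AddChar.map_nsmul_eq_pow, el, one_pow]

end Pool.Agent.MP_c1891a_nt.G43
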